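import Pool.Agent.H87.QP.Targets

/-!
# Local autocorrelations of Liouville's function (MP_c59857_nt): MLN

Monotonicity in the length, logarithmic means.
-/

set_option autoImplicit false

namespace Pool.Agent.H77.QP

open Finset Pool.Agent.H18.MR Pool.Agent.H93.DE Pool.Agent.H6.N4D Pool.Agent.H93
  Pool.Agent.H93.ES Pool.Agent.H28.NW Pool.Agent.H87.QP

lemma sum_shift_Icc (F : ℕ → ℝ) (n L : ℕ) :
    ∑ u ∈ Ioc n (n + L), F u = ∑ j ∈ Icc 1 L, F (n + j) := by
  apply sum_nbij' (fun u => u - n) (fun j => n + j)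
  · intro u hu; rw [mem_Ioc] at hu; rw [mem_Icc]; omega
  · intro j hj; rw [mem_Icc] at hj; rw [mem_Ioc]; omega
  · intro u hu; rw [mem_Ioc] at hu; show n + (u - n) = u; omega
  · intro j _; simp
  · intro u hu
    rw [mem_Ioc] at hu
    show F u = F (n + (u - n))
    congr 1; omega

/-- means of shifts of a bounded function -/
lemma wlg_mean_le (X : Wn) (L : ℕ) (hL : 1 ≤ L) (F : ℕ → ℝ) (hF : ∀ n, |F n| ≤ 1) :
    wlg X (fun n => (∑ u ∈ Ioc n (n + L), F u) / L) ≤ wlg X F + 3 * (1 + Real.log L) := by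
  have hL0 : (0 : ℝ) < L := by exact_mod_cast hL
  have h1 : wlg X (fun n => (∑ u ∈ Ioc n (n + L), F u) / L) =
      1 / (L : ℝ) * ∑ j ∈ Icc 1 L, wlg X (fun n => F (n + j)) := by
    rw [← wlg_sum, ← wlg_mul]
    unfold wlg
    refine sum_congr rfl fun n _ => ?_
    show (∑ u ∈ Ioc n (n + L), F u) / L / n = (1 / (L : ℝ) * ∑ i ∈ Icc 1 L, F (n + i)) / n
    rw [sum_shift_Icc]
    ring
  have h2 : ∀ j ∈ Icc 1 L, wlg X (fun n => F (n + j)) ≤ wlg X F + 3 * (1 + Real.log L) := by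
    intro j hj
    have h3 := (abs_le.1 (wlg_shift X j F (c := 1) hF)).2
    have h4 : EB.hs j ≤ 1 + Real.log L := (EB.hs_mono (mem_Icc.1 hj).2).trans (EB.hs_le L)
    linarith
  have h5 : ∑ j ∈ Icc 1 L, wlg X (fun n => F (n + j)) ≤
      L * (wlg X F + 3 * (1 + Real.log L)) := by
    refine (sum_le_sum h2).trans (le_of_eq ?_)
    rw [sum_const, Nat.card_Icc, nsmul_eq_mul]
    simp
  rw [h1, one_div, ← div_eq_inv_mul, div_le_iff₀ hL0]
  linarith

/-- MLN. Monotonicity in the length, logarithmic means. -/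
theorem pf_MLN (h : T_MNW) : T_MLN := by
  intro lam H q L L' X h1 h2 hl
  have hL1 : 1 ≤ L := h1.trans h2
  have hL0 : (0 : ℝ) < L := by exact_mod_cast hL1
  have hF0 : ∀ n, 0 ≤ mx H (fun h => |rh lam L' n (q * h)|) :=
    fun n => mx_nonneg H fun _ => abs_nonneg _
  have hF1 : ∀ n, mx H (fun h => |rh lam L' n (q * h)|) ≤ 1 :=
    fun n => mx_le_of_nonneg zero_le_one fun i _ _ => abs_rh_le hl _ _ _
  have h3 : wlg X (fun n => mx H (fun h => |rh lam L n (q * h)|)) ≤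
      wlg X (fun n => (∑ u ∈ Ioc n (n + L), mx H (fun h => |rh lam L' u (q * h)|)) / L +
        2 * L' / L) := wlg_mono fun n _ => h lam H q L L' n h1 h2 hl
  rw [wlg_add X (fun n => (∑ u ∈ Ioc n (n + L), mx H (fun h => |rh lam L' u (q * h)|)) / L)
    (fun _ => 2 * (L' : ℝ) / L), wlg_const X (2 * (L' : ℝ) / L)] at h3
  have h4 := wlg_mean_le X L hL1 (fun n => mx H (fun h => |rh lam L' n (q * h)|))
    fun n => by rw [abs_of_nonneg (hF0 n)]; exact hF1 n
  have h5 : 2 * (L' : ℝ) / L * wlg X (fun _ => 1) ≤ 2 * (L' : ℝ) / L * (1 + X.L) :=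
    mul_le_mul_of_nonneg_left (wlg_one_le X) (by positivity)
  have h6 : 0 ≤ Real.log L := Real.log_nonneg (by exact_mod_cast hL1)
  linarith

end Pool.Agent.H77.QP
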